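import Mathlib
import Pool.Agent.H26.GepDefs
import Pool.Agent.H26.GepBF

set_option autoImplicit false

namespace Pool.Agent.Results.MP_586029_ag.NotRigid

open Pool.Agent.H26.Gep

/-- There are two non-trivial geproci sets in `ℙ³` over `ℂ` whose matroids are isomorphic but
which are not projectively equivalent. -/
theorem result :
    ∃ Z Z' : Finset P3, NontrivialGeproci Z ∧ NontrivialGeproci Z' ∧ MatroidIso Z Z' ∧
      ¬ ProjEquiv Z Z' :=
  ⟨ZZ 3 ne3, ZZ 4 ne4,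
    ⟨isGeproci 3 ne3 np3 ⟨_, good3⟩, not_degenerate 3 ne3, not_grid 3 ne3 bf0_3 bf1_3'⟩,
    ⟨isGeproci 4 ne4 np4 ⟨_, good4⟩, not_degenerate 4 ne4, not_grid 4 ne4 bf0_4 bf1_4⟩,
    matroidIso 3 4 ne3 ne4 bf0_3 bf0_4 bf2,
    not_equiv 3 4 ne3 ne4 bf0_3 bf0_4 bf1_4 bf3⟩

end Pool.Agent.Results.MP_586029_ag.NotRigid
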